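import Mathlib

/-!
# Hopf algebras with a `Φ`-set theoretic basis have the positive basis property

Let `B` be a `Φ`-set theoretic basis of `H`, `Φ (B i ⊗ B j) = B (p i j) ⊗ B (q i j)`.  Write
`1 = ∑_{c ∈ E} λ_c B c`.  Then `λ_c = λ` does not depend on `c`, and the elements `λ B c`, `c ∈ E`,
are orthogonal idempotents; every `λ B x` has exactly one left and one right idempotent, and
`p x z` depends only on `x` and on the left idempotent of `z`.  It follows that the basis `λ B`
satisfies (1)-(5), and that all coordinates in (1)-(3) are `0` or `1`.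
-/

set_option autoImplicit false

open TensorProduct

namespace Pool.Agent.Results.MP_078f6d_al.PositiveBasis

universe u v

section Defs

variable (k : Type u) [Field k] (H : Type v) [Ring H] [HopfAlgebra k H]

/-- `Φ_H = (id ⊗ m) (Δ ⊗ id) : H ⊗ H → H ⊗ H`. -/
noncomputable def Phi : H ⊗[k] H →ₗ[k] H ⊗[k] H :=
  (LinearMap.lTensor H (LinearMap.mul' k H)) ∘ₗ (TensorProduct.assoc k H H H).toLinearMap ∘ₗ
    (LinearMap.rTensor H (Coalgebra.comul (R := k) (A := H)))

/-- `H` has a `Φ`-set theoretic basis. -/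
def HasPhiSetTheoreticBasis : Prop :=
  ∃ (ι : Type v) (B : Module.Basis ι k H), ∀ i j : ι, ∃ i' j' : ι,
    Phi k H (B i ⊗ₜ[k] B j) = B i' ⊗ₜ[k] B j'

variable {k} in
/-- A scalar `a` is nonnegative if its image in `ℂ` is a real number `≥ 0`. -/
def Nonneg (φ : k →+* ℂ) (a : k) : Prop := 0 ≤ (φ a).re ∧ (φ a).im = 0

/-- The positive basis property, with respect to the embedding `φ` of `k` into `ℂ`. -/
def PositiveBasisProperty (φ : k →+* ℂ) : Prop :=
  ∃ (ι : Type v) (B : Module.Basis ι k H),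
    (∀ i, Nonneg φ (B.repr 1 i)) ∧
    (∀ i, Nonneg φ (Coalgebra.counit (R := k) (B i))) ∧
    (∀ i j l, Nonneg φ (B.repr (B i * B j) l)) ∧
    (∀ i, ∀ l : ι × ι, Nonneg φ ((B.tensorProduct B).repr (Coalgebra.comul (R := k) (B i)) l)) ∧
    (∀ i l, Nonneg φ (B.repr (HopfAlgebra.antipode k (B i)) l))

end Defs

section

variable {k : Type u} [Field k] {H : Type v} [Ring H] [HopfAlgebra k H]


/-- `L f (x ⊗ y) = x₁ ⊗ f x₂ y`. -/
noncomputable def L (f : H →ₗ[k] H) : H ⊗[k] H →ₗ[k] H ⊗[k] H :=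
  (LinearMap.lTensor H (LinearMap.mul' k H)) ∘ₗ (LinearMap.lTensor H (LinearMap.rTensor H f)) ∘ₗ
    (TensorProduct.assoc k H H H).toLinearMap ∘ₗ (LinearMap.rTensor H (Coalgebra.comul (R := k) (A := H)))

lemma L_aux (f : H →ₗ[k] H) (y : H) (t : H ⊗[k] H) :
    (LinearMap.lTensor H (LinearMap.mul' k H)) ((LinearMap.lTensor H (LinearMap.rTensor H f))
      ((TensorProduct.assoc k H H H) (t ⊗ₜ[k] y)))
      = LinearMap.lTensor H (LinearMap.mulRight k y ∘ₗ f) t := by
  induction t with
  | zero => simp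
  | tmul a b => simp
  | add a b ha hb => simp only [TensorProduct.add_tmul, map_add, ha, hb]

lemma L_tmul (f : H →ₗ[k] H) (x y : H) :
    L f (x ⊗ₜ[k] y) = LinearMap.lTensor H (LinearMap.mulRight k y ∘ₗ f) ((Coalgebra.comul (R := k) (A := H)) x) := by
  rw [← L_aux]
  simp [L]

lemma Phi_eq : Phi k H = L (LinearMap.id : H →ₗ[k] H) := by
  unfold Phi L
  simp

lemma Phi_tmul (x y : H) :
    Phi k H (x ⊗ₜ[k] y) = LinearMap.lTensor H (LinearMap.mulRight k y) ((Coalgebra.comul (R := k) (A := H)) x) := by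
  rw [Phi_eq, L_tmul]
  simp

lemma LL_aux (f g : H →ₗ[k] H) (y : H) (t : H ⊗[k] H) :
    L f (LinearMap.lTensor H (LinearMap.mulRight k y ∘ₗ g) t)
      = LinearMap.lTensor H (LinearMap.mulRight k y ∘ₗ LinearMap.mul' k H ∘ₗ TensorProduct.map f g)
          ((TensorProduct.assoc k H H H) (LinearMap.rTensor H (Coalgebra.comul (R := k) (A := H)) t)) := by
  induction t with
  | zero => simp
  | add a b ha hb => simp only [map_add, ha, hb]
  | tmul a b =>
    rw [LinearMap.lTensor_tmul, L_tmul, LinearMap.rTensor_tmul]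
    generalize (Coalgebra.comul (R := k) (A := H)) a = s
    induction s with
    | zero => simp
    | tmul a b => simp [mul_assoc]
    | add a b ha hb => simp only [TensorProduct.add_tmul, map_add, ha, hb]

lemma LL (f g : H →ₗ[k] H) (x y : H) :
    L f (L g (x ⊗ₜ[k] y))
      = LinearMap.lTensor H (LinearMap.mulRight k y ∘ₗ LinearMap.mul' k H ∘ₗ
          TensorProduct.map f g ∘ₗ (Coalgebra.comul (R := k) (A := H))) ((Coalgebra.comul (R := k) (A := H)) x) := by
  rw [L_tmul, LL_aux, Coalgebra.coassoc_apply]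
  rw [← LinearMap.comp_apply, ← LinearMap.lTensor_comp]
  rfl

lemma unit_aux (h : H →ₗ[k] H) (x y : H) (hh : h = Algebra.linearMap k H ∘ₗ (Coalgebra.counit (R := k) (A := H))) :
    LinearMap.lTensor H (LinearMap.mulRight k y ∘ₗ h) ((Coalgebra.comul (R := k) (A := H)) x) = x ⊗ₜ[k] y := by
  rw [hh, ← LinearMap.comp_assoc, LinearMap.lTensor_comp, LinearMap.comp_apply,
    Coalgebra.lTensor_counit_comul]
  simp

lemma left_inv (t : H ⊗[k] H) : L (HopfAlgebra.antipode k (A := H)) (Phi k H t) = t := by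
  induction t with
  | zero => simp
  | add a b ha hb => simp only [map_add, ha, hb]
  | tmul x y =>
    rw [Phi_eq, LL]
    refine unit_aux _ x y ?_
    have := HopfAlgebra.mul_antipode_rTensor_comul (R := k) (A := H)
    rw [← this]
    rfl

lemma right_inv (t : H ⊗[k] H) : Phi k H (L (HopfAlgebra.antipode k (A := H)) t) = t := by
  induction t with
  | zero => simp
  | add a b ha hb => simp only [map_add, ha, hb]
  | tmul x y =>
    rw [Phi_eq, LL]
    refine unit_aux _ x y ?_
    have := HopfAlgebra.mul_antipode_lTensor_comul (R := k) (A := H)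
    rw [← this]
    rfl

lemma Phi_inj : Function.Injective (Phi k H) := Function.LeftInverse.injective left_inv

/-- `(id ⊗ ε) Φ (x ⊗ y) = ε(y) x`. -/
lemma Phi_counit_right (x y : H) :
    LinearMap.lTensor H (Coalgebra.counit (R := k) (A := H)) (Phi k H (x ⊗ₜ[k] y)) = ((Coalgebra.counit (R := k) (A := H)) y • x) ⊗ₜ[k] (1 : k) := by
  rw [Phi_tmul, ← LinearMap.comp_apply, ← LinearMap.lTensor_comp]
  have : (Coalgebra.counit (R := k) (A := H)) ∘ₗ LinearMap.mulRight k y = ((Coalgebra.counit (R := k) (A := H)) y) • (Coalgebra.counit (R := k) (A := H)) := by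
    ext z
    simp [mul_comm]
  rw [this, LinearMap.lTensor_smul, LinearMap.smul_apply, Coalgebra.lTensor_counit_comul,
    TensorProduct.smul_tmul']

/-- `(ε ⊗ id) Φ (x ⊗ y) = x y`. -/
lemma Phi_counit_left (x y : H) :
    LinearMap.rTensor H (Coalgebra.counit (R := k) (A := H)) (Phi k H (x ⊗ₜ[k] y)) = (1 : k) ⊗ₜ[k] (x * y) := by
  rw [Phi_tmul, ← LinearMap.comp_apply, LinearMap.rTensor_comp_lTensor,
    ← LinearMap.lTensor_comp_rTensor, LinearMap.comp_apply, Coalgebra.rTensor_counit_comul]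
  simp

lemma L_counit_left (f : H →ₗ[k] H) (x y : H) :
    LinearMap.rTensor H (Coalgebra.counit (R := k) (A := H)) (L f (x ⊗ₜ[k] y)) = (1 : k) ⊗ₜ[k] (f x * y) := by
  rw [L_tmul, ← LinearMap.comp_apply, LinearMap.rTensor_comp_lTensor,
    ← LinearMap.lTensor_comp_rTensor, LinearMap.comp_apply, Coalgebra.rTensor_counit_comul]
  simp

/-- `Φ (x ⊗ y z) = Φ (x ⊗ y) (1 ⊗ z)`. -/
lemma Phi_mul (x y z : H) :
    Phi k H (x ⊗ₜ[k] (y * z))
      = LinearMap.lTensor H (LinearMap.mulRight k z) (Phi k H (x ⊗ₜ[k] y)) := by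
  have e : LinearMap.mulRight k (y * z) = LinearMap.mulRight k z ∘ₗ LinearMap.mulRight k y := by
    ext w; simp [mul_assoc]
  rw [Phi_tmul, Phi_tmul, e, LinearMap.lTensor_comp, LinearMap.comp_apply]

/-- `Φ (1 ⊗ y) = 1 ⊗ y`. -/
lemma Phi_one (y : H) : Phi k H ((1 : H) ⊗ₜ[k] y) = (1 : H) ⊗ₜ[k] y := by
  rw [Phi_tmul, Bialgebra.comul_one, Algebra.TensorProduct.one_def]
  simp

/-- `Φ (x ⊗ 1) = Δ x`. -/
lemma Phi_right_one (x : H) : Phi k H (x ⊗ₜ[k] (1 : H)) = (Coalgebra.comul (R := k) (A := H)) x := by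
  rw [Phi_tmul]
  have : LinearMap.mulRight k (1 : H) = LinearMap.id := by
    ext z; simp
  rw [this]
  simp

end

section

variable {k : Type u} [Field k] {H : Type v} [Ring H] [HopfAlgebra k H] {ι : Type v}


/-- `B` is `Φ`-set theoretic, with the maps `p` and `q`. -/
def Dat (B : Module.Basis ι k H) (p q : ι → ι → ι) : Prop :=
  ∀ i j, Phi k H (B i ⊗ₜ[k] B j) = B (p i j) ⊗ₜ[k] B (q i j)

lemma tmul_inj (B : Module.Basis ι k H) {i j i' j' : ι} {a : k}
    (h : B i ⊗ₜ[k] B j = a • (B i' ⊗ₜ[k] B j')) : i = i' ∧ j = j' := by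
  have e := congrArg (B.tensorProduct B).repr h
  rw [map_smul, ← Module.Basis.tensorProduct_apply, ← Module.Basis.tensorProduct_apply,
    Module.Basis.repr_self, Module.Basis.repr_self, Finsupp.smul_single, smul_eq_mul, mul_one,
    Finsupp.single_eq_single_iff] at e
  rcases e with ⟨e, _⟩ | ⟨e, _⟩
  · exact Prod.mk.injEq _ _ _ _ ▸ e
  · exact absurd e one_ne_zero

lemma smul_inj (B : Module.Basis ι k H) {i i' : ι} {a b : k} (hb : b ≠ 0)
    (h : a • B i = b • B i') : i = i' ∧ a = b := by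
  have e := congrArg B.repr h
  rw [map_smul, map_smul, Module.Basis.repr_self, Module.Basis.repr_self, Finsupp.smul_single,
    Finsupp.smul_single, smul_eq_mul, mul_one, smul_eq_mul, mul_one,
    Finsupp.single_eq_single_iff] at e
  rcases e with ⟨e, e'⟩ | ⟨_, e⟩
  · exact ⟨e, e'⟩
  · exact absurd e hb

variable {B : Module.Basis ι k H} {p q : ι → ι → ι} (h : Dat B p q)
include h

lemma mul_eq (i j : ι) : B i * B j = (Coalgebra.counit (R := k) (A := H)) (B (p i j)) • B (q i j) := by
  have e := Phi_counit_left (k := k) (B i) (B j)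
  rw [h i j, LinearMap.rTensor_tmul] at e
  have e2 := congrArg (TensorProduct.lid k H) e
  simpa using e2.symm

lemma counit_eq (i j : ι) : (Coalgebra.counit (R := k) (A := H)) (B (q i j)) • B (p i j) = (Coalgebra.counit (R := k) (A := H)) (B j) • B i := by
  have e := Phi_counit_right (k := k) (B i) (B j)
  rw [h i j, LinearMap.lTensor_tmul] at e
  have e2 := congrArg (TensorProduct.rid k H) e
  simpa using e2

lemma T_inj : Function.Injective (fun x : ι × ι => (p x.1 x.2, q x.1 x.2)) := by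
  rintro ⟨i, j⟩ ⟨i', j'⟩ e
  simp only [Prod.mk.injEq] at e
  have e1 : Phi k H (B i ⊗ₜ[k] B j) = Phi k H (B i' ⊗ₜ[k] B j') := by
    rw [h, h, e.1, e.2]
  have e2 : B i ⊗ₜ[k] B j = (1 : k) • (B i' ⊗ₜ[k] B j') := by
    rw [one_smul]
    exact Phi_inj e1
  obtain ⟨r1, r2⟩ := tmul_inj B e2
  rw [r1, r2]

lemma T_surj (i j : ι) : ∃ a b, p a b = i ∧ q a b = j := by
  classical
  have e := right_inv (k := k) (B i ⊗ₜ[k] B j)
  obtain ⟨m, hm⟩ : ∃ m, m = (B.tensorProduct B).repr (L (HopfAlgebra.antipode k (A := H)) (B i ⊗ₜ[k] B j)) := ⟨_, rfl⟩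
  have e1 : L (HopfAlgebra.antipode k (A := H)) (B i ⊗ₜ[k] B j) = Finsupp.linearCombination k (B.tensorProduct B) m := by
    rw [hm, Module.Basis.linearCombination_repr]
  rw [e1, Finsupp.apply_linearCombination] at e
  have e2 : (⇑(Phi k H) ∘ ⇑(B.tensorProduct B))
      = ⇑(B.tensorProduct B) ∘ (fun x : ι × ι => (p x.1 x.2, q x.1 x.2)) := by
    funext x
    simp [h x.1 x.2, Module.Basis.tensorProduct_apply']
  rw [e2, ← Finsupp.linearCombination_mapDomain] at e
  have e3 := congrArg (B.tensorProduct B).repr e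
  rw [Module.Basis.repr_linearCombination, ← Module.Basis.tensorProduct_apply,
    Module.Basis.repr_self] at e3
  by_contra hc
  push Not at hc
  have e4 := Finsupp.mapDomain_of_notMem_range (f := (fun x : ι × ι => (p x.1 x.2, q x.1 x.2))) m (i, j)
    (by
      rintro ⟨x, hx⟩
      simp only [Prod.mk.injEq] at hx
      exact hc _ _ hx.1 hx.2)
  rw [e3] at e4
  simp at e4

omit h in
lemma lin_tmul (y : H) (l : ι →₀ k) (f : ι → H) :
    Finsupp.linearCombination k (fun c => f c ⊗ₜ[k] y) l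
      = (Finsupp.linearCombination k f l) ⊗ₜ[k] y := by
  rw [Finsupp.linearCombination_apply, Finsupp.linearCombination_apply, Finsupp.sum, Finsupp.sum,
    TensorProduct.sum_tmul]
  rfl

lemma unit_maps (y : ι) :
    Finsupp.mapDomain (fun c => (p c y, q c y)) (B.repr 1)
      = Finsupp.mapDomain (fun c => (c, y)) (B.repr 1) := by
  have h1 : (Finsupp.linearCombination k (fun c => B c ⊗ₜ[k] B y)) (B.repr 1)
      = (1 : H) ⊗ₜ[k] B y := by
    rw [lin_tmul, Module.Basis.linearCombination_repr]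
  have e1 : Finsupp.linearCombination k (B.tensorProduct B)
      (Finsupp.mapDomain (fun c => (c, y)) (B.repr 1)) = (1 : H) ⊗ₜ[k] B y := by
    rw [Finsupp.linearCombination_mapDomain, ← h1]
    congr 2
    funext c
    simp
  have e2 : Finsupp.linearCombination k (B.tensorProduct B)
      (Finsupp.mapDomain (fun c => (p c y, q c y)) (B.repr 1)) = (1 : H) ⊗ₜ[k] B y := by
    rw [← Phi_one, ← h1, Finsupp.apply_linearCombination, Finsupp.linearCombination_mapDomain]
    congr 2
    funext c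
    simp [h c y]
  have e3 := congrArg (B.tensorProduct B).repr (e2.trans e1.symm)
  rwa [Module.Basis.repr_linearCombination, Module.Basis.repr_linearCombination] at e3

lemma inj1 (y : ι) : Function.Injective (fun c => (p c y, q c y)) := by
  intro c c' e
  have := T_inj h (a₁ := (c, y)) (a₂ := (c', y)) e
  exact (Prod.mk.inj this).1

lemma inj2 (y : ι) : Function.Injective (fun c : ι => (c, y)) := by
  intro c c' e
  exact (Prod.mk.inj e).1

lemma unit_q {c : ι} (hc : B.repr 1 c ≠ 0) (y : ι) : q c y = y := by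
  by_contra hq
  have e := DFunLike.congr_fun (unit_maps h y) (p c y, q c y)
  rw [Finsupp.mapDomain_apply (f := fun c => (p c y, q c y)) (inj1 h y),
    Finsupp.mapDomain_of_notMem_range] at e
  · exact hc e
  · rintro ⟨x, hx⟩
    exact hq (Prod.mk.inj hx).2.symm

lemma unit_p {c : ι} (hc : B.repr 1 c ≠ 0) (y : ι) : B.repr 1 (p c y) = B.repr 1 c := by
  have e := DFunLike.congr_fun (unit_maps h y) (p c y, q c y)
  rw [Finsupp.mapDomain_apply (f := fun c => (p c y, q c y)) (inj1 h y), unit_q h hc y,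
    Finsupp.mapDomain_apply (f := fun c => (c, y)) (inj2 h y)] at e
  exact e.symm

lemma unit_surj {c' : ι} (hc : B.repr 1 c' ≠ 0) (y : ι) : ∃ c, B.repr 1 c ≠ 0 ∧ p c y = c' := by
  have e := DFunLike.congr_fun (unit_maps h y) (c', y)
  rw [Finsupp.mapDomain_apply (f := fun c => (c, y)) (inj2 h y)] at e
  by_cases hr : (c', y) ∈ Set.range (fun c => (p c y, q c y))
  · obtain ⟨c, hcc⟩ := hr
    refine ⟨c, ?_, (Prod.mk.inj hcc).1⟩
    rw [← hcc, Finsupp.mapDomain_apply (f := fun c => (p c y, q c y)) (inj1 h y)] at e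
    rw [e]
    exact hc
  · rw [Finsupp.mapDomain_of_notMem_range _ _ hr] at e
    exact absurd e.symm hc

omit h in
lemma one_eq : (1 : H) = ∑ c ∈ (B.repr 1).support, B.repr 1 c • B c := by
  conv_lhs => rw [← B.linearCombination_repr 1, Finsupp.linearCombination_apply]
  rfl

lemma mul_E {c c' : ι} (hc : B.repr 1 c ≠ 0) (hc' : B.repr 1 c' ≠ 0) :
    (c = c' → B.repr 1 c * (Coalgebra.counit (R := k) (A := H)) (B (p c' c)) = 1) ∧ (c ≠ c' → (Coalgebra.counit (R := k) (A := H)) (B (p c' c)) = 0) := by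
  classical
  have e : B c' = ∑ d ∈ (B.repr 1).support, (B.repr 1 d * (Coalgebra.counit (R := k) (A := H)) (B (p c' d))) • B d := by
    conv_lhs => rw [← mul_one (B c'), one_eq (B := B), Finset.mul_sum]
    refine Finset.sum_congr rfl (fun d _ => ?_)
    rw [mul_smul_comm, mul_eq h, unit_q h hc' d, smul_smul]
  have e2 := DFunLike.congr_fun (congrArg B.repr e) c
  rw [map_sum, Finsupp.finsetSum_apply] at e2
  have e3 : ∑ d ∈ (B.repr 1).support, (B.repr ((B.repr 1 d * (Coalgebra.counit (R := k) (A := H)) (B (p c' d))) • B d)) c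
      = B.repr 1 c * (Coalgebra.counit (R := k) (A := H)) (B (p c' c)) := by
    rw [Finset.sum_eq_single c]
    · simp
    · intro d _ hd
      simp [hd]
    · intro hcs
      exact absurd (Finsupp.mem_support_iff.mpr hc) hcs
  rw [e3, Module.Basis.repr_self] at e2
  constructor
  · rintro rfl
    rw [← e2]; simp
  · intro hne
    rw [Finsupp.single_eq_of_ne hne] at e2
    rcases mul_eq_zero.mp e2.symm with h1 | h1
    · exact absurd h1 hc
    · exact h1

lemma idem {c : ι} (hc : B.repr 1 c ≠ 0) : B c * B c = (B.repr 1 c)⁻¹ • B c := by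
  rw [mul_eq h, unit_q h hc c]
  congr 1
  have := (mul_E h hc hc).1 rfl
  exact eq_inv_of_mul_eq_one_right this

lemma right_unit (x : ι) : ∃ c, B.repr 1 c ≠ 0 ∧ B x * B c = (B.repr 1 c)⁻¹ • B x := by
  classical
  have e : B x = ∑ c ∈ (B.repr 1).support, B.repr 1 c • (B x * B c) := by
    conv_lhs => rw [← mul_one (B x), one_eq (B := B), Finset.mul_sum]
    refine Finset.sum_congr rfl (fun d _ => ?_)
    rw [mul_smul_comm]
  have e2 := DFunLike.congr_fun (congrArg B.repr e) x
  rw [map_sum, Finsupp.finsetSum_apply, Module.Basis.repr_self, Finsupp.single_eq_same] at e2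
  obtain ⟨c, hcs, hc⟩ := Finset.exists_ne_zero_of_sum_ne_zero (by rw [← e2]; exact one_ne_zero)
  rw [Finsupp.mem_support_iff] at hcs
  refine ⟨c, hcs, ?_⟩
  rw [mul_eq h] at hc
  have hq : q x c = x := by
    by_contra hq
    apply hc
    simp [hq]
  rw [hq] at hc
  have ha : (Coalgebra.counit (R := k) (A := H)) (B (p x c)) ≠ 0 := by
    intro h0
    apply hc
    rw [h0]; simp
  have e3 : B x * B c = (Coalgebra.counit (R := k) (A := H)) (B (p x c)) • B x := by rw [mul_eq h, hq]
  have e4 : B x * B c * B c = B x * (B c * B c) := mul_assoc _ _ _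
  rw [idem h hcs, e3, mul_smul_comm, smul_mul_assoc, e3, smul_smul, smul_smul] at e4
  have e5 := (smul_inj B (mul_ne_zero (inv_ne_zero hcs) ha) e4).2
  rw [e3, mul_right_cancel₀ ha e5]

lemma left_unit (x : ι) : ∃ c, B.repr 1 c ≠ 0 ∧ B c * B x = (B.repr 1 c)⁻¹ • B x := by
  classical
  have e : B x = ∑ c ∈ (B.repr 1).support, B.repr 1 c • (B c * B x) := by
    conv_lhs => rw [← one_mul (B x), one_eq (B := B), Finset.sum_mul]
    refine Finset.sum_congr rfl (fun d _ => ?_)
    rw [smul_mul_assoc]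
  have e2 := DFunLike.congr_fun (congrArg B.repr e) x
  rw [map_sum, Finsupp.finsetSum_apply, Module.Basis.repr_self, Finsupp.single_eq_same] at e2
  obtain ⟨c, hcs, hc⟩ := Finset.exists_ne_zero_of_sum_ne_zero (by rw [← e2]; exact one_ne_zero)
  rw [Finsupp.mem_support_iff] at hcs
  refine ⟨c, hcs, ?_⟩
  rw [mul_eq h] at hc
  have hq : q c x = x := unit_q h hcs x
  rw [hq] at hc
  have ha : (Coalgebra.counit (R := k) (A := H)) (B (p c x)) ≠ 0 := by
    intro h0
    apply hc
    rw [h0]; simp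
  have e3 : B c * B x = (Coalgebra.counit (R := k) (A := H)) (B (p c x)) • B x := by rw [mul_eq h, hq]
  have e4 : B c * B c * B x = B c * (B c * B x) := mul_assoc _ _ _
  rw [idem h hcs, smul_mul_assoc, e3, mul_smul_comm, e3, smul_smul, smul_smul] at e4
  have e5 := (smul_inj B (mul_ne_zero ha ha) e4).2
  rw [e3, mul_right_cancel₀ ha e5]

lemma exists_e : ∃ e, B.repr 1 e ≠ 0 ∧ (Coalgebra.counit (R := k) (A := H)) (B e) ≠ 0 := by
  have e1 : (Coalgebra.counit (R := k) (A := H)) (1 : H) = 1 := Bialgebra.counit_one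
  rw [one_eq (B := B), map_sum] at e1
  obtain ⟨c, hcs, hc⟩ := Finset.exists_ne_zero_of_sum_ne_zero (by rw [e1]; exact one_ne_zero)
  rw [Finsupp.mem_support_iff] at hcs
  refine ⟨c, hcs, ?_⟩
  intro h0
  apply hc
  rw [map_smul, h0, smul_zero]

/-- All nonzero coordinates of `1` are equal. -/
lemma lam_const {e c : ι} (he : B.repr 1 e ≠ 0) (he' : (Coalgebra.counit (R := k) (A := H)) (B e) ≠ 0) (hc : B.repr 1 c ≠ 0) :
    B.repr 1 c = ((Coalgebra.counit (R := k) (A := H)) (B e))⁻¹ := by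
  obtain ⟨c', hc', hp⟩ := unit_surj h he c
  have := mul_E h hc hc'
  rw [hp] at this
  by_cases hcc : c = c'
  · exact eq_inv_of_mul_eq_one_left (this.1 hcc)
  · exact absurd (this.2 hcc) he'

lemma p_eq {z l : ι} (hl : B.repr 1 l ≠ 0) (hlz : B l * B z = (B.repr 1 l)⁻¹ • B z) (x : ι) :
    p x z = p x l := by
  have e1 : B z = B.repr 1 l • (B l * B z) := by
    rw [hlz, smul_smul, mul_inv_cancel₀ hl, one_smul]
  have e2 : Phi k H (B x ⊗ₜ[k] B z)
      = (B.repr 1 l * (Coalgebra.counit (R := k) (A := H)) (B (p (q x l) z))) • (B (p x l) ⊗ₜ[k] B (q (q x l) z)) := by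
    conv_lhs => rw [e1]
    rw [TensorProduct.tmul_smul, map_smul, Phi_mul, h x l, LinearMap.lTensor_tmul,
      LinearMap.mulRight_apply, mul_eq h, TensorProduct.tmul_smul, smul_smul]
  rw [h x z] at e2
  exact (tmul_inj B e2).1

lemma eps_p {e : ι} (he : B.repr 1 e ≠ 0) (he' : (Coalgebra.counit (R := k) (A := H)) (B e) ≠ 0) (x z : ι) :
    (Coalgebra.counit (R := k) (A := H)) (B (p x z)) = 0 ∨ (Coalgebra.counit (R := k) (A := H)) (B (p x z)) = (Coalgebra.counit (R := k) (A := H)) (B e) := by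
  obtain ⟨l, hl, hlz⟩ := left_unit h z
  obtain ⟨r, hr, hxr⟩ := right_unit h x
  rw [p_eq h hl hlz x]
  have hlam := lam_const h he he' hr
  have hxl : B x * B l = B.repr 1 r • (B x * (B r * B l)) := by
    rw [← mul_assoc, hxr, smul_mul_assoc, smul_smul, mul_inv_cancel₀ hr, one_smul]
  by_cases hrl : l = r
  · subst hrl
    right
    have e2 := mul_eq h x l
    rw [hxr] at e2
    have := (smul_inj B (inv_ne_zero hr) e2.symm).2
    rw [this, hlam, inv_inv]
  · left
    have e2 := (mul_E h hl hr).2 hrl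
    rw [mul_eq h r l, e2, zero_smul, mul_zero, smul_zero, mul_eq h] at hxl
    rcases smul_eq_zero.mp hxl with h1 | h1
    · exact h1
    · exact absurd h1 (B.ne_zero _)

lemma eps_B {e : ι} (he : B.repr 1 e ≠ 0) (he' : (Coalgebra.counit (R := k) (A := H)) (B e) ≠ 0) (x : ι) :
    (Coalgebra.counit (R := k) (A := H)) (B x) = 0 ∨ (Coalgebra.counit (R := k) (A := H)) (B x) = (Coalgebra.counit (R := k) (A := H)) (B e) := by
  have e1 := counit_eq h x e
  have e2 := (smul_inj B he' e1).1
  have := eps_p h he he' x e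
  rwa [e2] at this

omit h in
lemma nonneg_zero (φ : k →+* ℂ) : Nonneg φ 0 := by simp [Nonneg]

omit h in
lemma nonneg_one (φ : k →+* ℂ) : Nonneg φ 1 := by simp [Nonneg]

omit h in
lemma nonneg_add (φ : k →+* ℂ) {a b : k} (ha : Nonneg φ a) (hb : Nonneg φ b) :
    Nonneg φ (a + b) := by
  unfold Nonneg at *
  rw [map_add, Complex.add_re, Complex.add_im]
  exact ⟨add_nonneg ha.1 hb.1, by rw [ha.2, hb.2, add_zero]⟩

omit h in
lemma nonneg_sum (φ : k →+* ℂ) {α : Type*} (s : Finset α) (f : α → k)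
    (hf : ∀ a ∈ s, Nonneg φ (f a)) : Nonneg φ (∑ a ∈ s, f a) :=
  Finset.sum_induction f (Nonneg φ) (fun _ _ => nonneg_add φ) (nonneg_zero φ) hf

omit h in
lemma nonneg_single (φ : k →+* ℂ) {α : Type*} (a b : α) : Nonneg φ (Finsupp.single a (1 : k) b) := by
  classical
  rw [Finsupp.single_apply]
  split_ifs
  · exact nonneg_one φ
  · exact nonneg_zero φ

/-- If in addition `1` is a sum of elements of `B` and `ε (B x)` is `0` or `1` for all `x`, then `B`
has the five properties. -/
lemma final (φ : k →+* ℂ) (h1 : ∀ c, B.repr 1 c = 0 ∨ B.repr 1 c = 1)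
    (h2 : ∀ x, (Coalgebra.counit (R := k) (A := H)) (B x) = 0 ∨ (Coalgebra.counit (R := k) (A := H)) (B x) = 1) :
    (∀ i, Nonneg φ (B.repr 1 i)) ∧
    (∀ i, Nonneg φ ((Coalgebra.counit (R := k) (A := H)) (B i))) ∧
    (∀ i j l, Nonneg φ (B.repr (B i * B j) l)) ∧
    (∀ i, ∀ l : ι × ι, Nonneg φ ((B.tensorProduct B).repr ((Coalgebra.comul (R := k) (A := H)) (B i)) l)) ∧
    (∀ i l, Nonneg φ (B.repr ((HopfAlgebra.antipode k (A := H)) (B i)) l)) := by
  classical
  have one' : (1 : H) = ∑ c ∈ (B.repr 1).support, B c := by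
    conv_lhs => rw [one_eq (B := B)]
    refine Finset.sum_congr rfl (fun c hc => ?_)
    rw [Finsupp.mem_support_iff] at hc
    rcases h1 c with h3 | h3
    · exact absurd h3 hc
    · rw [h3, one_smul]
  refine ⟨fun i => ?_, fun i => ?_, fun i j l => ?_, fun i l => ?_, fun i l => ?_⟩
  · rcases h1 i with h3 | h3 <;> rw [h3]
    · exact nonneg_zero φ
    · exact nonneg_one φ
  · rcases h2 i with h3 | h3 <;> rw [h3]
    · exact nonneg_zero φ
    · exact nonneg_one φ
  · rw [mul_eq h]
    rcases h2 (p i j) with h3 | h3 <;> rw [h3]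
    · simpa using nonneg_zero φ
    · rw [one_smul, Module.Basis.repr_self]
      exact nonneg_single φ _ _
  · rw [← Phi_right_one, one', TensorProduct.tmul_sum, map_sum, map_sum, Finsupp.finsetSum_apply]
    refine nonneg_sum φ _ _ (fun c _ => ?_)
    rw [h i c, ← Module.Basis.tensorProduct_apply, Module.Basis.repr_self]
    exact nonneg_single φ _ _
  · have e1 : (1 : k) ⊗ₜ[k] ((HopfAlgebra.antipode k (A := H)) (B i)) = LinearMap.rTensor H (Coalgebra.counit (R := k) (A := H)) (L (HopfAlgebra.antipode k (A := H)) (B i ⊗ₜ[k] 1)) := by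
      rw [L_counit_left, mul_one]
    have e2 : ∀ c, ∃ a b : ι, L (HopfAlgebra.antipode k (A := H)) (B i ⊗ₜ[k] B c) = B a ⊗ₜ[k] B b := by
      intro c
      obtain ⟨a, b, ha, hb⟩ := T_surj h i c
      refine ⟨a, b, ?_⟩
      rw [← left_inv (k := k) (B a ⊗ₜ[k] B b), h a b, ha, hb]
    choose α β hαβ using e2
    rw [one', TensorProduct.tmul_sum, map_sum, map_sum] at e1
    have e3 := congrArg (TensorProduct.lid k H) e1
    rw [map_sum] at e3
    have e4 : (HopfAlgebra.antipode k (A := H)) (B i) = ∑ c ∈ (B.repr 1).support, (Coalgebra.counit (R := k) (A := H)) (B (α c)) • B (β c) := by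
      rw [TensorProduct.lid_tmul, one_smul] at e3
      rw [e3]
      refine Finset.sum_congr rfl (fun c _ => ?_)
      rw [hαβ c]
      simp
    rw [e4, map_sum, Finsupp.finsetSum_apply]
    refine nonneg_sum φ _ _ (fun c _ => ?_)
    rcases h2 (α c) with h3 | h3 <;> rw [h3]
    · simpa using nonneg_zero φ
    · rw [one_smul, Module.Basis.repr_self]
      exact nonneg_single φ _ _

end

/-- **Main theorem.**  Let `k` be a field of characteristic `0` with an embedding into `ℂ` and `H` a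
Hopf algebra over `k`.  If `H` has a `Φ`-set theoretic basis, then `H` has the positive basis
property. -/
theorem result (k : Type u) [Field k] (φ : k →+* ℂ) (H : Type v) [Ring H] [HopfAlgebra k H]
    (hH : HasPhiSetTheoreticBasis k H) : PositiveBasisProperty k H φ := by
  obtain ⟨ι, B, hB⟩ := hH
  choose p q h using hB
  have h : Dat B p q := h
  obtain ⟨e, he, he'⟩ := exists_e h
  let w : ι → kˣ := fun _ => Units.mk0 (Coalgebra.counit (R := k) (B e))⁻¹ (inv_ne_zero he')
  let C : Module.Basis ι k H := B.unitsSMul w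
  have hC : ∀ i, C i = (Coalgebra.counit (R := k) (B e))⁻¹ • B i := fun i => by
    simp only [C, Module.Basis.unitsSMul_apply, w]
    rfl
  have h' : Dat C p q := by
    intro i j
    rw [hC, hC, hC, hC]
    rw [TensorProduct.smul_tmul_smul, map_smul, h i j, TensorProduct.smul_tmul_smul]
  refine ⟨ι, C, final h' φ ?_ ?_⟩
  · intro c
    have e1 : C.repr 1 c = Coalgebra.counit (R := k) (B e) * B.repr 1 c := by
      simp only [C, Module.Basis.repr_unitsSMul, w]
      simp [Units.smul_def]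
    by_cases hc : B.repr 1 c = 0
    · left
      rw [e1, hc, mul_zero]
    · right
      rw [e1, lam_const h he he' hc, mul_inv_cancel₀ he']
  · intro x
    rw [hC, map_smul, smul_eq_mul]
    rcases eps_B h he he' x with h3 | h3
    · left
      rw [h3, mul_zero]
    · right
      rw [h3, inv_mul_cancel₀ he']

end Pool.Agent.Results.MP_078f6d_al.PositiveBasis
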